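import Pool.Agent.Helper51.REC.Goals3
import Pool.Agent.Helper42.RD.VAL

set_option autoImplicit false

/-!
# Project REC (MP_fc6b1e_nt), packet REC-T_CON: the constants of `T_LIN` are all equal
-/

namespace Pool.Agent.Helper74.REC

open NumberField Module IsDedekindDomain Pool.Agent.Helper51.RP Pool.Agent.Helper42.PP
open Pool.Agent.Helper51.REC
open Pool.Agent.Helper42.RD (val_eq_one_of_sub locPow_of_sub ordv_mul ordv_pow ordv_inv
  ordv_eq_zero_iff)

section basic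

variable {p : ℕ} [Fact p.Prime] {F : Type} [Field F] [NumberField F] {ε : F}
    {S : Set (HeightOneSpectrum (𝓞 F))}

theorem val_p_le (W : HeightOneSpectrum (𝓞 F)) (n : ℕ) : W.valuation F (n : F) ≤ 1 := by
  have e : algebraMap (𝓞 F) F (n : 𝓞 F) = (n : F) := map_natCast (algebraMap (𝓞 F) F) n
  rw [← e]
  exact W.valuation_le_one (K := F) (n : 𝓞 F)

theorem val_p_eq (hS : Sit p F ε S) {W : HeightOneSpectrum (𝓞 F)} (hW : W ∉ S) :
    W.valuation F (p : F) = 1 := by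
  rcases lt_or_eq_of_le (val_p_le W p) with h | h
  · exact absurd (hS.abp W h) hW
  · exact h

theorem ordu_mul (W : HeightOneSpectrum (𝓞 F)) (x y : Fˣ) :
    ordv W ((x * y : Fˣ) : F) = ordv W (x : F) + ordv W (y : F) := by
  rw [Units.val_mul]
  exact ordv_mul W x.ne_zero y.ne_zero

theorem ordu_inv (W : HeightOneSpectrum (𝓞 F)) (x : Fˣ) :
    ordv W ((x⁻¹ : Fˣ) : F) = - ordv W (x : F) := by
  rw [Units.val_inv_eq_inv_val]
  exact ordv_inv W x.ne_zero

theorem ordu_pow (W : HeightOneSpectrum (𝓞 F)) (x : Fˣ) (n : ℕ) :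
    ordv W ((x ^ n : Fˣ) : F) = n * ordv W (x : F) := by
  rw [Units.val_pow_eq_pow_val]
  exact ordv_pow W _ n

theorem ordu_zero {W : HeightOneSpectrum (𝓞 F)} {x : Fˣ} (h : W.valuation F (x : F) = 1) :
    ordv W (x : F) = 0 := (ordv_eq_zero_iff W x.ne_zero).2 h

theorem val_one {W : HeightOneSpectrum (𝓞 F)} {x : Fˣ} (h : ordv W (x : F) = 0) :
    W.valuation F (x : F) = 1 := (ordv_eq_zero_iff W x.ne_zero).1 h

theorem locS_mono {Z Z' : Set (HeightOneSpectrum (𝓞 F))} (h : Z ⊆ Z') {x : Fˣ}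
    (hx : LocS p Z' x) : LocS p Z x := by
  obtain ⟨y, hy⟩ := hx
  exact ⟨y, fun w hw => hy w (h hw)⟩

theorem locPow_of_locS {Z : Set (HeightOneSpectrum (𝓞 F))} {x : Fˣ} (hx : LocS p Z x)
    {W : HeightOneSpectrum (𝓞 F)} (hW : W ∈ Z) : LocPow p W (x : F) := by
  obtain ⟨y, hy⟩ := hx
  exact ⟨(y : F), (hy W hW).1⟩

/-- Weak approximation in `LocS`. -/
theorem exists_locS (h2 : K_APP) (hfin : S.Finite) (T : Finset (HeightOneSpectrum (𝓞 F)))
    (hT : ∀ W ∈ T, W ∉ S) (g : HeightOneSpectrum (𝓞 F) → Fˣ) :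
    ∃ β : Fˣ, LocS p S β ∧ ∀ v ∈ T, v.valuation F ((β : F) * ((g v)⁻¹ : Fˣ) - 1) < 1 := by
  classical
  obtain ⟨β, hβ⟩ := h2 p F (S ∪ (T : Set (HeightOneSpectrum (𝓞 F))))
    (hfin.union T.finite_toSet) (fun W => if W ∈ S then 1 else g W) 3
  refine ⟨β, ⟨1, fun w hw => ?_⟩, fun v hv => ?_⟩
  · have h := hβ w (Or.inl hw)
    rw [if_pos hw] at h
    have e : (β : F) * ((1 : Fˣ) : F) ^ p - 1 = (β : F) * (((1 : Fˣ)⁻¹ : Fˣ) : F) - 1 := by
      rw [inv_one, Units.val_one, one_pow]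
    rw [e]
    exact h
  · have h := hβ v (Or.inr (Finset.mem_coe.2 hv))
    rw [if_neg (hT v hv)] at h
    exact h.1

theorem ord_of_close {W : HeightOneSpectrum (𝓞 F)} {β g : Fˣ}
    (h : W.valuation F ((β : F) * (g⁻¹ : Fˣ) - 1) < 1) : ordv W (β : F) = ordv W (g : F) := by
  have h1 : W.valuation F (((β * g⁻¹ : Fˣ) : Fˣ) : F) = 1 := by
    rw [Units.val_mul]
    exact val_eq_one_of_sub W h
  have h2 := ordu_zero h1
  rw [ordu_mul, ordu_inv] at h2
  linarith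

theorem kap_of_close (h1 : K_BAS) (hε : IsPrimitiveRoot ε p) {W : HeightOneSpectrum (𝓞 F)}
    (hW : W.valuation F (p : F) = 1) {β g : Fˣ} (hg : (p : ℤ) ∣ ordv W (g : F))
    (h : W.valuation F ((β : F) * (g⁻¹ : Fˣ) - 1) < 1) : kap p ε W β = kap p ε W g := by
  obtain ⟨-, -, -, hadd, -, hz, -⟩ := h1 p F ε hε W hW
  have h2 : W.valuation F (((β * g⁻¹ : Fˣ) : Fˣ) : F) = 1 := by
    rw [Units.val_mul]
    exact val_eq_one_of_sub W h
  have h3 : (p : ℤ) ∣ ordv W ((β * g⁻¹ : Fˣ) : F) := by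
    rw [ordu_zero h2]
    exact dvd_zero _
  have h4 : kap p ε W (β * g⁻¹) = 0 := by
    rw [hz _ h3, Units.val_mul]
    exact locPow_of_sub W h
  have h5 := hadd (β * g⁻¹) g h3 hg
  rw [inv_mul_cancel_right, h4, zero_add] at h5
  exact h5

theorem brw_eq (c : HeightOneSpectrum (𝓞 F) → ZMod p) (β x : Fˣ)
    (T : Finset (HeightOneSpectrum (𝓞 F))) (hT : ∀ W ∈ T, W ∉ S)
    (hx : ∀ W, W ∉ S → ¬ (p : ℤ) ∣ ordv W (x : F) → W ∈ T) :
    brw p ε S c β x =
      ∑ W ∈ T, c W * (((ordv W (x : F) : ℤ) : ZMod p) * kap p ε W β) := by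
  classical
  unfold brw
  rw [finsum_eq_sum_of_support_subset (s := T)]
  · refine Finset.sum_congr rfl fun W hW => ?_
    rw [if_neg (hT W hW)]
  · intro W hW
    by_contra hWT
    apply hW
    dsimp only
    by_cases hWS : W ∈ S
    · rw [if_pos hWS]
    · rw [if_neg hWS]
      have h1 : (p : ℤ) ∣ ordv W (x : F) := by
        by_contra h2
        exact hWT (Finset.mem_coe.2 (hx W hWS h2))
      rw [(ZMod.intCast_zmod_eq_zero_iff_dvd _ p).2 h1, zero_mul, mul_zero]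

end basic

section claim

variable {p : ℕ} [Fact p.Prime] {F : Type} [Field F] [NumberField F] {ε : F}
    {S : Set (HeightOneSpectrum (𝓞 F))}

theorem sit_union (hS : Sit p F ε S) (T : Finset (HeightOneSpectrum (𝓞 F))) :
    Sit p F ε (S ∪ (T : Set (HeightOneSpectrum (𝓞 F)))) where
  prim := hS.prim
  cplx := hS.cplx
  fin := hS.fin.union T.finite_toSet
  abp := fun W hW => Or.inl (hS.abp W hW)
  prin := fun n => by
    obtain ⟨x, hx⟩ := hS.prin n
    exact ⟨x, fun W hW => hx W fun h => hW (Or.inl h)⟩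

/-- Step (α). -/
theorem step_a (h1 : K_BAS) (h3 : K_LOC) (h5 : H_A) (hS : Sit p F ε S)
    (T : Finset (HeightOneSpectrum (𝓞 F))) (hT : ∀ W ∈ T, W ∉ S) (β₀ : Fˣ)
    (hβ : LocS p S β₀) (hβv : ∀ v ∈ T, v.valuation F (β₀ : F) = 1)
    (u : Fˣ) (hu : u ∈ (S ∪ (T : Set (HeightOneSpectrum (𝓞 F)))).unit F)
    (hloc : LocS p (S ∪ (T : Set (HeightOneSpectrum (𝓞 F)))) (β₀ * u)) :
    ∀ v ∈ T, kap p ε v β₀ = 0 := by
  classical
  have hp0 : (p : ℤ) ≠ 0 := by exact_mod_cast (Fact.out : p.Prime).ne_zero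
  set S₁ := S ∪ (T : Set (HeightOneSpectrum (𝓞 F))) with hS₁
  have hS₁fin : S₁.Finite := hS.fin.union T.finite_toSet
  obtain ⟨lmul, linv, lpow, -, -⟩ := h3 p F S hS.fin
  obtain ⟨-, -, -, ldvd, -⟩ := h3 p F S₁ hS₁fin
  have hmem : ∀ v ∈ T, v ∈ S₁ := fun v hv => Or.inr (Finset.mem_coe.2 hv)
  -- the valuations of `u` at `T`
  have hud : ∀ v ∈ T, (p : ℤ) ∣ ordv v (u : F) := by
    intro v hv
    have h6 := ldvd (β₀ * u) hloc v (hmem v hv)
    rw [ordu_mul, ordu_zero (hβv v hv), zero_add] at h6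
    exact h6
  obtain ⟨n, hn⟩ : ∃ n : HeightOneSpectrum (𝓞 F) →₀ ℤ, ∀ W, n W =
      if W ∈ T then ordv W (u : F) / p else 0 := by
    refine ⟨Finsupp.onFinset T (fun W => if W ∈ T then ordv W (u : F) / p else 0) ?_, ?_⟩
    · intro W hW
      by_contra h
      exact hW (if_neg h)
    · intro W
      rfl
  obtain ⟨e, he⟩ := hS.prin n
  set u' : Fˣ := u * (e⁻¹) ^ p with hu'
  have hu'0 : ∀ W ∉ S, ordv W (u' : F) = 0 := by
    intro W hW
    rw [hu', ordu_mul, ordu_pow, ordu_inv, he W hW, hn W]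
    by_cases hWT : W ∈ T
    · rw [if_pos hWT]
      obtain ⟨m, hm⟩ := hud W hWT
      rw [hm, Int.mul_ediv_cancel_left _ hp0]
      ring
    · rw [if_neg hWT]
      have h7 : W ∉ S₁ := by
        rintro (h | h)
        · exact hW h
        · exact hWT (Finset.mem_coe.1 h)
      have h8 : W.valuation F (u : F) = 1 := hu W h7
      rw [ordu_zero h8]
      ring
  have hu'loc : LocS p S u' := by
    have h7 : u' = (β₀ * u) * β₀⁻¹ * (e⁻¹) ^ p := by
      rw [hu']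
      congr 1
      rw [mul_comm β₀ u, mul_inv_cancel_right]
    rw [h7]
    exact lmul _ _ (lmul _ _ (locS_mono Set.subset_union_left hloc) (linv _ hβ)) (lpow _)
  have hpw : Pw p u' := by
    by_contra hnp
    obtain ⟨m, ⟨W, hW, -⟩, -⟩ := h5 p F ε S hS u' hu'loc hnp ∅ (fun W => by
      constructor
      · intro h
        exact absurd h (Finset.notMem_empty _)
      · rintro ⟨hWS, hWd⟩
        exact absurd (by rw [hu'0 W hWS]; exact dvd_zero _) hWd)
    exact absurd hW (Finset.notMem_empty _)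
  obtain ⟨z, hz⟩ := hpw
  intro v hv
  have hvS := hT v hv
  obtain ⟨-, -, -, hadd, hkp, hk0, -⟩ := h1 p F ε hS.prim v (val_p_eq hS hvS)
  have h8 : β₀ = (β₀ * u) * ((z * e)⁻¹) ^ p := by
    have h9 : u = (z * e) ^ p := by
      have h10 : u = u' * e ^ p := by
        rw [hu', mul_assoc, ← mul_pow, inv_mul_cancel, one_pow, mul_one]
      rw [h10, hz, mul_pow]
    rw [h9, mul_assoc, ← mul_pow, mul_inv_cancel, one_pow, mul_one]
  have h9 : (p : ℤ) ∣ ordv v ((β₀ * u : Fˣ) : F) := ldvd (β₀ * u) hloc v (hmem v hv)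
  have h10 : (p : ℤ) ∣ ordv v ((((z * e)⁻¹) ^ p : Fˣ) : F) := by
    rw [ordu_pow]
    exact dvd_mul_right _ _
  rw [h8, hadd _ _ h9 h10, hkp, add_zero, hk0 _ h9]
  exact locPow_of_locS hloc (hmem v hv)

/-- The claim. -/
theorem claim (h1 : K_BAS) (h2 : K_APP) (h3 : K_LOC) (h4 : K_BRK) (h5 : H_A) (h6 : L_LIN)
    (hS : Sit p F ε S) (c : HeightOneSpectrum (𝓞 F) → ZMod p)
    (hc : ∀ x β : Fˣ, LocS p S β → Sep p S x β → brk p ε S x β = brw p ε S c β x)
    (x : Fˣ) (hx : LocS p S x) (T : Finset (HeightOneSpectrum (𝓞 F)))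
    (hT : ∀ W, W ∈ T ↔ W ∉ S ∧ ¬ (p : ℤ) ∣ ordv W (x : F))
    (b : HeightOneSpectrum (𝓞 F) → ZMod p) (hb : ∃ v ∈ T, b v ≠ 0) :
    ∃ V, V ∉ S ∧ ∑ v ∈ T, ((ordv v (x : F) : ℤ) : ZMod p) * b v =
      c V * ∑ v ∈ T, c v * (((ordv v (x : F) : ℤ) : ZMod p) * b v) := by
  classical
  have hTS : ∀ W ∈ T, W ∉ S := fun W hW => ((hT W).1 hW).1
  -- `β₀`
  have hex : ∀ W : HeightOneSpectrum (𝓞 F), ∃ g : Fˣ, W ∉ S →
      W.valuation F (g : F) = 1 ∧ kap p ε W g = b W := by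
    intro W
    by_cases hW : W ∈ S
    · exact ⟨1, fun h => absurd hW h⟩
    · obtain ⟨g, hg⟩ := (h1 p F ε hS.prim W (val_p_eq hS hW)).2.2.2.2.2.2 (b W)
      exact ⟨g, fun _ => hg⟩
  choose g hg using hex
  obtain ⟨β₀, hβ₀, hβ₀v⟩ := exists_locS (p := p) h2 hS.fin T hTS g
  have hβo : ∀ v ∈ T, ordv v (β₀ : F) = 0 := by
    intro v hv
    rw [ord_of_close (hβ₀v v hv)]
    exact ordu_zero (hg v (hTS v hv)).1
  have hβ1 : ∀ v ∈ T, v.valuation F (β₀ : F) = 1 := fun v hv => val_one (hβo v hv)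
  have hβk : ∀ v ∈ T, kap p ε v β₀ = b v := by
    intro v hv
    have h7 := hg v (hTS v hv)
    rw [kap_of_close h1 hS.prim (val_p_eq hS (hTS v hv)) (by
      rw [ordu_zero h7.1]
      exact dvd_zero _) (hβ₀v v hv)]
    exact h7.2
  -- `L_LIN`
  set S₁ := S ∪ (T : Set (HeightOneSpectrum (𝓞 F))) with hS₁
  have hS₁fin : S₁.Finite := hS.fin.union T.finite_toSet
  have hmem : ∀ v ∈ T, v ∈ S₁ := fun v hv => Or.inr (Finset.mem_coe.2 hv)
  obtain ⟨lmul, -, -, -, -⟩ := h3 p F S hS.fin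
  obtain ⟨-, -, -, ldvd, -⟩ := h3 p F S₁ hS₁fin
  obtain ⟨γ, V, hγ, hV⟩ := h6 p F ε S₁ (sit_union hS T) β₀ (by
    rintro ⟨u, hu, hloc⟩
    obtain ⟨v, hv, hbv⟩ := hb
    apply hbv
    rw [← hβk v hv]
    exact step_a h1 h3 h5 hS T hTS β₀ hβ₀ hβ1 u hu hloc v hv)
  obtain ⟨hVS₁, hVd, hVo⟩ := hV
  have hVS : V ∉ S := fun h => hVS₁ (Or.inl h)
  have hVT : V ∉ T := fun h => hVS₁ (hmem V h)
  set β := β₀ * γ with hβ
  have hβloc : LocS p S β := lmul _ _ hβ₀ (locS_mono Set.subset_union_left hγ)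
  have hγd : ∀ v ∈ T, (p : ℤ) ∣ ordv v (γ : F) := fun v hv => ldvd γ hγ v (hmem v hv)
  have hβd : ∀ v ∈ T, (p : ℤ) ∣ ordv v (β : F) := by
    intro v hv
    rw [hβ, ordu_mul, hβo v hv, zero_add]
    exact hγd v hv
  have hβkap : ∀ v ∈ T, kap p ε v β = b v := by
    intro v hv
    obtain ⟨-, -, -, hadd, -, hk0, -⟩ := h1 p F ε hS.prim v (val_p_eq hS (hTS v hv))
    rw [hβ, hadd _ _ (by rw [hβo v hv]; exact dvd_zero _) (hγd v hv), hβk v hv,
      (hk0 γ (hγd v hv)).2 (locPow_of_locS hγ (hmem v hv)), add_zero]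
  have hβall : ∀ W ∉ S, W ≠ V → (p : ℤ) ∣ ordv W (β : F) := by
    intro W hW hne
    by_cases hWT : W ∈ T
    · exact hβd W hWT
    · refine hVo W ?_ hne
      rintro (h | h)
      · exact hW h
      · exact hWT (Finset.mem_coe.1 h)
  have hβV : ∀ W ∉ S, ¬ (p : ℤ) ∣ ordv W (β : F) → W ∈ ({V} : Finset (HeightOneSpectrum (𝓞 F))) := by
    intro W hW hd
    rw [Finset.mem_singleton]
    by_contra hne
    exact hd (hβall W hW hne)
  have hVs : ∀ W ∈ ({V} : Finset (HeightOneSpectrum (𝓞 F))), W ∉ S := by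
    intro W hW
    rw [Finset.mem_singleton] at hW
    rw [hW]
    exact hVS
  have hxT : ∀ W ∉ S, ¬ (p : ℤ) ∣ ordv W (x : F) → W ∈ T := fun W hW hd => (hT W).2 ⟨hW, hd⟩
  have hbrk := (h4 p F ε S hS.prim hS.abp).2.2.2.1
  have hsep : Sep p S x β := by
    intro W hW
    by_cases hWT : W ∈ T
    · exact Or.inr (hβd W hWT)
    · left
      by_contra hd
      exact hWT (hxT W hW hd)
  have hsep' : Sep p S β x := fun W hW => (hsep W hW).symm
  have e1 := hc x β hβloc hsep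
  rw [hbrk x β {V} hVs hβV, Finset.sum_singleton, brw_eq c β x T hTS hxT] at e1
  have e2 := hc β x hx hsep'
  rw [hbrk β x T hTS hxT, brw_eq c x β {V} hVs hβV, Finset.sum_singleton] at e2
  have e3 : ∑ v ∈ T, ((ordv v (x : F) : ℤ) : ZMod p) * kap p ε v β =
      ∑ v ∈ T, ((ordv v (x : F) : ℤ) : ZMod p) * b v :=
    Finset.sum_congr rfl fun v hv => by rw [hβkap v hv]
  have e4 : ∑ v ∈ T, c v * (((ordv v (x : F) : ℤ) : ZMod p) * kap p ε v β) =
      ∑ v ∈ T, c v * (((ordv v (x : F) : ℤ) : ZMod p) * b v) :=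
    Finset.sum_congr rfl fun v hv => by rw [hβkap v hv]
  refine ⟨V, hVS, ?_⟩
  rw [← e3, ← e4, e2, e1]

/-- Elements of `LocS` with valuation `1` at two primes. -/
theorem exists_ord (h2 : K_APP) (hS : Sit p F ε S) (v v' : HeightOneSpectrum (𝓞 F))
    (hv : v ∉ S) (hv' : v' ∉ S) :
    ∃ x : Fˣ, LocS p S x ∧ ordv v (x : F) = 1 ∧ ordv v' (x : F) = 1 := by
  classical
  have hex : ∀ W : HeightOneSpectrum (𝓞 F), ∃ g : Fˣ, ordv W (g : F) = 1 := by
    intro W
    obtain ⟨π, hπ⟩ := W.valuation_exists_uniformizer F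
    have hπ0 : π ≠ 0 := by
      rintro rfl
      rw [map_zero] at hπ
      exact absurd hπ.symm WithZero.exp_ne_zero
    refine ⟨Units.mk0 π hπ0, ?_⟩
    unfold ordv
    rw [Units.val_mk0, hπ, WithZero.log_exp, neg_neg]
  choose g hg using hex
  obtain ⟨x, hx, hxv⟩ := exists_locS (p := p) h2 hS.fin ({v, v'} : Finset (HeightOneSpectrum (𝓞 F)))
    (by
      intro W hW
      rw [Finset.mem_insert, Finset.mem_singleton] at hW
      rcases hW with h | h
      · rw [h]; exact hv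
      · rw [h]; exact hv') g
  refine ⟨x, hx, ?_, ?_⟩
  · rw [ord_of_close (hxv v (Finset.mem_insert_self _ _))]
    exact hg v
  · rw [ord_of_close (hxv v' (Finset.mem_insert.2 (Or.inr (Finset.mem_singleton_self _))))]
    exact hg v'

end claim

open Classical in
theorem t_con (h1 : K_BAS) (h2 : K_APP) (h3 : K_LOC) (h4 : K_BRK) (h5 : H_A) (h6 : L_LIN) :
    Pool.Agent.Helper51.REC.T_CON := by
  intro p _ F _ _ ε S hS c hc
  by_cases hne : ∃ v₀ : HeightOneSpectrum (𝓞 F), v₀ ∉ S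
  swap
  · refine ⟨1, by ring, fun v hv => absurd ⟨v, hv⟩ hne⟩
  obtain ⟨v₀, hv₀⟩ := hne
  have hp1 : ¬ (p : ℤ) ∣ 1 := by
    intro h
    have h7 : (p : ℤ) ≤ 1 := Int.le_of_dvd one_pos h
    have h8 : 2 ≤ p := (Fact.out : p.Prime).two_le
    have h9 : (2 : ℤ) ≤ p := by exact_mod_cast h8
    omega
  -- the finite set of an element
  have hTex : ∀ x : Fˣ, ∃ T : Finset (HeightOneSpectrum (𝓞 F)),
      ∀ W, W ∈ T ↔ W ∉ S ∧ ¬ (p : ℤ) ∣ ordv W (x : F) := by
    intro x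
    have hfin := (h4 p F ε S hS.prim hS.abp).2.2.2.2 x
    have hfin2 : {W : HeightOneSpectrum (𝓞 F) | W ∉ S ∧ ¬ (p : ℤ) ∣ ordv W (x : F)}.Finite :=
      hfin.subset fun W hW => hW.2
    refine ⟨hfin2.toFinset, fun W => ?_⟩
    rw [Set.Finite.mem_toFinset]
    rfl
  -- for two primes
  have key : ∀ v v' : HeightOneSpectrum (𝓞 F), v ∉ S → v' ∉ S → c v ≠ 0 ∧ c v = c v' ∧
      ∃ V, V ∉ S ∧ 1 = c V * c v := by
    intro v v' hv hv'
    obtain ⟨x, hx, hxv, hxv'⟩ := exists_ord h2 hS v v' hv hv'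
    obtain ⟨T, hT⟩ := hTex x
    have hvT : v ∈ T := (hT v).2 ⟨hv, by rw [hxv]; exact hp1⟩
    have hvT' : v' ∈ T := (hT v').2 ⟨hv', by rw [hxv']; exact hp1⟩
    have hcl := claim h1 h2 h3 h4 h5 h6 hS c hc x hx T hT
    -- one prime
    have hone : ∀ w ∈ T, ordv w (x : F) = 1 → ∃ V, V ∉ S ∧ 1 = c V * c w := by
      intro w hw hxw
      obtain ⟨V, hVS, hV⟩ := hcl (fun W => if W = w then 1 else 0)
        ⟨w, hw, by rw [if_pos rfl]; exact one_ne_zero⟩
      refine ⟨V, hVS, ?_⟩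
      have e1 : ∑ v ∈ T, ((ordv v (x : F) : ℤ) : ZMod p) * (if v = w then 1 else 0) = 1 := by
        rw [Finset.sum_eq_single w]
        · rw [if_pos rfl, hxw, Int.cast_one, one_mul]
        · intro b _ hb
          rw [if_neg hb, mul_zero]
        · intro h
          exact absurd hw h
      have e2 : ∑ v ∈ T, c v * (((ordv v (x : F) : ℤ) : ZMod p) * (if v = w then 1 else 0)) =
          c w := by
        rw [Finset.sum_eq_single w]
        · rw [if_pos rfl, hxw, Int.cast_one, one_mul, mul_one]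
        · intro b _ hb
          rw [if_neg hb, mul_zero, mul_zero]
        · intro h
          exact absurd hw h
      rw [e1, e2] at hV
      exact hV
    have hnz : ∀ w ∈ T, ordv w (x : F) = 1 → c w ≠ 0 := by
      intro w hw hxw h0
      obtain ⟨V, -, hV⟩ := hone w hw hxw
      rw [h0, mul_zero] at hV
      exact one_ne_zero hV
    have hcv := hnz v hvT hxv
    have hcv' := hnz v' hvT' hxv'
    refine ⟨hcv, ?_, hone v hvT hxv⟩
    by_cases hvv : v = v'
    · rw [hvv]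
    · obtain ⟨V, -, hV⟩ := hcl (fun W => if W = v then (c v)⁻¹ else if W = v' then -(c v')⁻¹ else 0)
        ⟨v, hvT, by rw [if_pos rfl]; exact inv_ne_zero hcv⟩
      have hsub : ({v, v'} : Finset (HeightOneSpectrum (𝓞 F))) ⊆ T := by
        intro W hW
        rw [Finset.mem_insert, Finset.mem_singleton] at hW
        rcases hW with h | h
        · rw [h]; exact hvT
        · rw [h]; exact hvT'
      have e1 : ∑ w ∈ T, ((ordv w (x : F) : ℤ) : ZMod p) *
          (if w = v then (c v)⁻¹ else if w = v' then -(c v')⁻¹ else 0) =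
          (c v)⁻¹ - (c v')⁻¹ := by
        rw [← Finset.sum_subset hsub, Finset.sum_pair hvv]
        · rw [if_pos rfl, if_neg (Ne.symm hvv), if_pos rfl, hxv, hxv', Int.cast_one]
          ring
        · intro w _ hw
          rw [Finset.mem_insert, Finset.mem_singleton] at hw
          rw [if_neg (fun h => hw (Or.inl h)), if_neg (fun h => hw (Or.inr h)), mul_zero]
      have e2 : ∑ w ∈ T, c w * (((ordv w (x : F) : ℤ) : ZMod p) *
          (if w = v then (c v)⁻¹ else if w = v' then -(c v')⁻¹ else 0)) = 0 := by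
        rw [← Finset.sum_subset hsub, Finset.sum_pair hvv]
        · rw [if_pos rfl, if_neg (Ne.symm hvv), if_pos rfl, hxv, hxv', Int.cast_one, one_mul,
            one_mul, mul_inv_cancel₀ hcv, mul_neg, mul_inv_cancel₀ hcv']
          ring
        · intro w _ hw
          rw [Finset.mem_insert, Finset.mem_singleton] at hw
          rw [if_neg (fun h => hw (Or.inl h)), if_neg (fun h => hw (Or.inr h)), mul_zero,
            mul_zero]
      rw [e1, e2, mul_zero, sub_eq_zero] at hV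
      exact inv_injective hV
  obtain ⟨-, -, V, hVS, hV⟩ := key v₀ v₀ hv₀ hv₀
  refine ⟨c v₀, ?_, fun v hv => (key v v₀ hv hv₀).2.1⟩
  rw [(key V v₀ hVS hv₀).2.1] at hV
  exact hV.symm

end Pool.Agent.Helper74.REC
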